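import Mathlib

/-!
Data of the counterexample for `MP_f0067e_co` (`d = 2`, `r = 6`).

Sixteen discs of radius `1`, centred at integer points, carry two measures (red and blue), each of
total weight `66`.  Eight discs are red, eight are blue; the discs `0,1,2,3,8,9,10,11,12` lie in the
upper half plane.  Directions are covered by `32` cones; in each cone a witness point certifies that
certain half planes do not exist.
-/

set_option autoImplicit false

namespace Pool.Agent.Lib.MP_f0067e_co

/-- x-coordinates of the disc centres -/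
def cx : Fin 16 → ℤ := ![-59, -53, 66, 25, -46, 99, 12, -65, -100, -100, 4, 100, 91, -53, 36, 6]
/-- y-coordinates of the disc centres -/
def cy : Fin 16 → ℤ := ![11, 69, 48, 47, -5, -61, -27, -89, 35, 92, 11, 38, 98, -99, -100, -1]
/-- red weights -/
def wr : Fin 16 → ℕ := ![10, 9, 5, 9, 8, 9, 9, 7, 0, 0, 0, 0, 0, 0, 0, 0]
/-- blue weights -/
def wb : Fin 16 → ℕ := ![0, 0, 0, 0, 0, 0, 0, 0, 7, 8, 6, 8, 4, 5, 7, 21]
/-- the discs in the upper half plane -/
def up : Fin 16 → Bool :=
  ![true, true, true, true, false, false, false, false, true, true, true, true, true,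
    false, false, false]

/-- red weights restricted to the upper discs -/
def wru (i : Fin 16) : ℕ := if up i then wr i else 0
/-- blue weights restricted to the upper discs -/
def wbu (i : Fin 16) : ℕ := if up i then wb i else 0

/-- integer dot product -/
def idot (a b : ℤ × ℤ) : ℤ := a.1 * b.1 + a.2 * b.2
/-- integer cross product -/
def icross (a b : ℤ × ℤ) : ℤ := a.1 * b.2 - a.2 * b.1
/-- l1 norm -/
def il1 (a : ℤ × ℤ) : ℤ := |a.1| + |a.2|
/-- centre of disc -/
def ctr (i : Fin 16) : ℤ × ℤ := (cx i, cy i)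

/-- `q` minus `p` clears the discs in the direction `n` by `s` radii -/
def clear1 (s : ℤ) (p q n : ℤ × ℤ) : Bool := decide (s * il1 n ≤ idot (q - p) n)

/-- disc at `q` lies in the open half plane through `p` for all directions of the cone `n1, n2` -/
def clear (s : ℤ) (p q n1 n2 : ℤ × ℤ) : Bool := clear1 s p q n1 && clear1 s p q n2

/-- certificate: no half plane with direction in the cone has both masses equal to `L`. -/
def cert (f g : Fin 16 → ℕ) (L : ℕ) (n1 n2 w : ℤ × ℤ) : Bool :=
  decide ((∑ i, if clear 1 (ctr i) w n1 n2 then 0 else f i) < L) &&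
  decide (L < ∑ i, if clear 1 w (ctr i) n1 n2 then g i else 0)

/-- certificate for the cones that contain halving lines -/
def ucert (f g : Fin 16 → ℕ) (n1 n2 : ℤ × ℤ) : Bool :=
  decide (∀ d a, up d = true → up a = false → f a ≠ 0 → clear 2 (ctr a) (ctr d) n1 n2 = true) &&
  decide (∀ d, up d = true → g d ≠ 0 → ∃ e, up e = true ∧ f e ≠ 0 ∧
    clear 0 (ctr e) (ctr d) n1 n2 = true)

/-- directions bounding the cones -/
def dirsL : List (ℤ × ℤ) :=
  [(1, 0), (3, 1), (2, 1), (3, 2), (1, 1), (2, 3), (1, 2), (1, 3), (0, 1), (-1, 3), (-1, 2),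
   (-2, 3), (-1, 1), (-3, 2), (-2, 1), (-3, 1), (-1, 0), (-3, -1), (-2, -1), (-3, -2), (-1, -1),
   (-2, -3), (-1, -2), (-1, -3), (0, -1), (1, -3), (1, -2), (2, -3), (1, -1), (3, -2), (2, -1),
   (3, -1), (1, 0)]
/-- witnesses for level one -/
def w1L : List (ℤ × ℤ) :=
  [(68, 46), (44, 108), (16, 108), (0, 90), (0, 74), (0, 66), (0, 62), (-38, 70), (0, 50), (0, 42),
   (0, 52), (0, 72), (0, 102), (-12, 108), (-28, 108), (-60, 52), (-60, 0), (-20, -110), (0, -110),
   (-36, -26), (0, -54), (0, -38), (0, -30), (0, -62), (-30, -90), (0, -70), (0, -58), (-10, -54),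
   (0, -54), (0, -88), (16, -106), (68, 34)]
/-- witnesses for level two -/
def w2L : List (ℤ × ℤ) :=
  [(8, 4), (0, 22), (0, 14), (0, 12), (-40, 54), (0, 16), (0, 16), (0, 36), (46, 40), (0, 12),
   (0, 12), (0, 10), (0, 10), (0, 8), (0, 6), (0, 4), (0, 0), (0, -32), (0, -50), (-30, -16),
   (0, -10), (0, 0), (0, -2), (0, -2), (0, -6), (0, -6), (0, -8), (0, -10), (50, 34), (0, -22),
   (0, -24), (8, 0)]
/-- witnesses for level one inside the upper half -/
def w4L : List (ℤ × ℤ) :=
  [(26, 48), (6, 108), (0, 100), (0, 88), (0, 74), (0, 66), (0, 62), (-38, 70), (0, 50), (0, 42),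
   (0, 52), (0, 72), (0, 102), (-12, 108), (-28, 108), (-54, 70), (-54, 0), (0, -94), (0, -40),
   (-14, 8), (-40, 54), (0, 16), (0, 16), (0, 36), (46, 40), (0, 12), (0, 12), (0, 10), (6, 16),
   (0, -6), (0, -32), (26, 0)]
/-- witnesses for level three -/
def w3L : List (ℤ × ℤ) :=
  [(0, 0), (0, 0), (0, 0), (0, 0), (0, 0), (0, 0), (0, -2), (0, 0), (0, 0), (0, 6), (0, 0), (0, 0),
   (0, 0), (0, 0), (0, 0), (0, 0)]

/-- direction number `k` -/
def dd (k : ℕ) : ℤ × ℤ := dirsL.getD k (0, 0)
/-- witness number `k` -/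
def ww (l : List (ℤ × ℤ)) (k : ℕ) : ℤ × ℤ := l.getD k (0, 0)

theorem cross_pos : ∀ k < 32, 0 < icross (dd k) (dd (k + 1)) := by decide

theorem cert1 : ∀ k < 32, cert wr wb 11 (dd k) (dd (k + 1)) (ww w1L k) = true := by decide +kernel

theorem cert2 : ∀ k < 32, cert wb wr 22 (dd k) (dd (k + 1)) (ww w2L k) = true := by decide +kernel

theorem cert4 : ∀ k < 32, cert wru wbu 11 (dd k) (dd (k + 1)) (ww w4L k) = true := by
  decide +kernel

theorem cert3 : ∀ k < 16, (cert wr wb 33 (dd k) (dd (k + 1)) (ww w3L k) ||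
    cert wb wr 33 (dd k) (dd (k + 1)) (ww w3L k) ||
    ucert wr wb (dd k) (dd (k + 1)) || ucert wb wr (dd k) (dd (k + 1))) = true := by
  decide +kernel

end Pool.Agent.Lib.MP_f0067e_co
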