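import Pool.Agent.Lib.MP_f0067e_co.Data

set_option autoImplicit false

open MeasureTheory

namespace Pool.Agent.Lib.MP_f0067e_co

/-- the plane -/
abbrev E : Type := EuclideanSpace ℝ (Fin 2)

/-- point with integer coordinates -/
noncomputable def pt (p : ℤ × ℤ) : E := !₂[(p.1 : ℝ), (p.2 : ℝ)]

/-- value of the linear form `u` at an integer point -/
noncomputable def lin (u : E) (p : ℤ × ℤ) : ℝ := u 0 * p.1 + u 1 * p.2

theorem inner_eq (u x : E) : inner ℝ u x = u 0 * x 0 + u 1 * x 1 := by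
  simp [PiLp.inner_apply, Fin.sum_univ_two, mul_comm]

theorem inner_pt (u : E) (p : ℤ × ℤ) : inner ℝ u (pt p) = lin u p := by
  simp [inner_eq, pt, lin]

/-- `u` is in the closed convex cone spanned by `n1` and `n2` -/
def InCone (n1 n2 : ℤ × ℤ) (u : E) : Prop :=
  ∃ α β : ℝ, 0 ≤ α ∧ 0 ≤ β ∧ u 0 = α * n1.1 + β * n2.1 ∧ u 1 = α * n1.2 + β * n2.2

theorem norm_le_abs (u : E) : ‖u‖ ≤ |u 0| + |u 1| := by
  rw [EuclideanSpace.norm_eq, Fin.sum_univ_two]
  rw [Real.sqrt_le_left (by positivity)]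
  simp only [Real.norm_eq_abs, sq_abs]
  nlinarith [sq_abs (u 0), sq_abs (u 1), abs_nonneg (u 0), abs_nonneg (u 1),
    mul_nonneg (abs_nonneg (u 0)) (abs_nonneg (u 1))]

theorem clear_lin {s : ℤ} (hs : 0 ≤ s) {p q n1 n2 : ℤ × ℤ} {u : E} (hc : InCone n1 n2 u)
    (h : clear s p q n1 n2 = true) : lin u p + s * ‖u‖ ≤ lin u q := by
  obtain ⟨α, β, hα, hβ, h0, h1⟩ := hc
  simp only [clear, clear1, Bool.and_eq_true, idot, il1, Prod.fst_sub, Prod.snd_sub] at h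
  obtain ⟨ha, hb⟩ := h
  replace ha := of_decide_eq_true ha
  replace hb := of_decide_eq_true hb
  have ha' : (s : ℝ) * (|(n1.1 : ℝ)| + |(n1.2 : ℝ)|) ≤
      ((q.1 : ℝ) - p.1) * n1.1 + ((q.2 : ℝ) - p.2) * n1.2 := by exact_mod_cast ha
  have hb' : (s : ℝ) * (|(n2.1 : ℝ)| + |(n2.2 : ℝ)|) ≤
      ((q.1 : ℝ) - p.1) * n2.1 + ((q.2 : ℝ) - p.2) * n2.2 := by exact_mod_cast hb
  have hs' : (0 : ℝ) ≤ s := by exact_mod_cast hs
  have hn : ‖u‖ ≤ α * (|(n1.1 : ℝ)| + |(n1.2 : ℝ)|) + β * (|(n2.1 : ℝ)| + |(n2.2 : ℝ)|) := by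
    refine (norm_le_abs u).trans ?_
    rw [h0, h1]
    have e1 := abs_add_le (α * (n1.1 : ℝ)) (β * n2.1)
    have e2 := abs_add_le (α * (n1.2 : ℝ)) (β * n2.2)
    rw [abs_mul, abs_mul, abs_of_nonneg hα, abs_of_nonneg hβ] at e1 e2
    linarith
  have key : lin u q - lin u p = α * (((q.1 : ℝ) - p.1) * n1.1 + ((q.2 : ℝ) - p.2) * n1.2) +
      β * (((q.1 : ℝ) - p.1) * n2.1 + ((q.2 : ℝ) - p.2) * n2.2) := by
    simp only [lin]; rw [h0, h1]; ring
  have e3 := mul_le_mul_of_nonneg_left ha' hα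
  have e4 := mul_le_mul_of_nonneg_left hb' hβ
  have e5 := mul_le_mul_of_nonneg_left hn hs'
  nlinarith

/-- the `i`-th disc -/
def B (i : Fin 16) : Set E := Metric.ball (pt (ctr i)) 1

theorem ball_lt {u y : E} (hu : u ≠ 0) {i : Fin 16} (hy : y ∈ B i) :
    |inner ℝ u y - lin u (ctr i)| < ‖u‖ := by
  rw [← inner_pt, ← inner_sub_right]
  have h1 := abs_real_inner_le_norm u (y - pt (ctr i))
  have h2 : ‖y - pt (ctr i)‖ < 1 := by
    simpa [B, Metric.mem_ball, dist_eq_norm] using hy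
  have h3 : 0 < ‖u‖ := norm_pos_iff.mpr hu
  nlinarith

theorem inside {n1 n2 w : ℤ × ℤ} {u y : E} {i : Fin 16} (hc : InCone n1 n2 u) (hu : u ≠ 0)
    (h : clear 1 w (ctr i) n1 n2 = true) (hy : y ∈ B i) : lin u w < inner ℝ u y := by
  have h1 := clear_lin (by norm_num) hc h
  have h2 := abs_lt.mp (ball_lt hu hy)
  push_cast at h1
  linarith [h2.1]

theorem outside {n1 n2 w : ℤ × ℤ} {u y : E} {i : Fin 16} (hc : InCone n1 n2 u) (hu : u ≠ 0)
    (h : clear 1 (ctr i) w n1 n2 = true) (hy : y ∈ B i) : inner ℝ u y < lin u w := by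
  have h1 := clear_lin (by norm_num) hc h
  have h2 := abs_lt.mp (ball_lt hu hy)
  push_cast at h1
  linarith [h2.2]

/-- every nonzero vector lies in one of the cones -/
theorem ivt (c : ℕ → ℝ) (a n : ℕ) (h0 : 0 ≤ c a) (hn : c (a + n) ≤ 0) (hpos : 0 < n) :
    ∃ k, a ≤ k ∧ k < a + n ∧ 0 ≤ c k ∧ c (k + 1) ≤ 0 := by
  induction n with
  | zero => omega
  | succ n ih =>
    by_cases h : c (a + n) ≤ 0
    · by_cases hn0 : n = 0
      · subst hn0
        exact ⟨a, le_refl _, by omega, h0, hn⟩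
      · obtain ⟨k, h1, h2, h3, h4⟩ := ih h (by omega)
        exact ⟨k, h1, by omega, h3, h4⟩
    · push Not at h
      exact ⟨a + n, by omega, by omega, h.le, hn⟩

/-- real cross product with an integer vector -/
noncomputable def rc (p : ℤ × ℤ) (u : E) : ℝ := p.1 * u 1 - p.2 * u 0

theorem inCone_of {n1 n2 : ℤ × ℤ} {u : E} (h1 : 0 ≤ rc n1 u) (h2 : rc n2 u ≤ 0)
    (hD : 0 < icross n1 n2) : InCone n1 n2 u := by
  have hD' : (0 : ℝ) < (n1.1 : ℝ) * n2.2 - n1.2 * n2.1 := by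
    have : (0 : ℝ) < ((icross n1 n2 : ℤ) : ℝ) := by exact_mod_cast hD
    simpa [icross] using this
  refine ⟨-rc n2 u / ((n1.1 : ℝ) * n2.2 - n1.2 * n2.1), rc n1 u / ((n1.1 : ℝ) * n2.2 - n1.2 * n2.1),
    div_nonneg (by linarith) hD'.le, div_nonneg h1 hD'.le, ?_, ?_⟩
  · rw [div_mul_eq_mul_div, div_mul_eq_mul_div, ← add_div, eq_div_iff hD'.ne']
    simp only [rc]; ring
  · rw [div_mul_eq_mul_div, div_mul_eq_mul_div, ← add_div, eq_div_iff hD'.ne']
    simp only [rc]; ring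

theorem cover_half (u : E) (hu : 0 ≤ u 1) : ∃ k < 16, InCone (dd k) (dd (k + 1)) u := by
  obtain ⟨k, _, h2, h3, h4⟩ := ivt (fun k => rc (dd k) u) 0 16 (by simpa [rc, dd, dirsL] using hu)
    (by simpa [rc, dd, dirsL] using hu) (by norm_num)
  exact ⟨k, by omega, inCone_of h3 h4 (cross_pos k (by omega))⟩

theorem cover (u : E) : ∃ k < 32, InCone (dd k) (dd (k + 1)) u := by
  by_cases hu : 0 ≤ u 1
  · obtain ⟨k, hk, h⟩ := cover_half u hu
    exact ⟨k, by omega, h⟩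
  · push Not at hu
    obtain ⟨k, _, h2, h3, h4⟩ := ivt (fun k => rc (dd k) u) 16 16
      (by simpa [rc, dd, dirsL] using hu.le) (by simpa [rc, dd, dirsL] using hu.le) (by norm_num)
    exact ⟨k, by omega, inCone_of h3 h4 (cross_pos k (by omega))⟩

end Pool.Agent.Lib.MP_f0067e_co
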