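import Pool.Agent.Lib.MP_f0067e_co.Meas

set_option autoImplicit false

open MeasureTheory ENNReal

namespace Pool.Agent.Lib.MP_f0067e_co

/-- iterated hyperplane partitions of a set, as an inductive predicate -/
inductive Part : Set E → List (Set E) → Prop
  | one (A : Set E) : Part A [A]
  | cut (A : Set E) (l₁ l₂ : List (Set E)) (w : E) (c : ℝ) (hw : w ≠ 0)
      (h₁ : Part (A ∩ {x | inner ℝ w x ≤ c}) l₁) (h₂ : Part (A ∩ {x | c < inner ℝ w x}) l₂) :
      Part A (l₁ ++ l₂)

theorem Part.length_pos {A : Set E} {l : List (Set E)} (h : Part A l) : 0 < l.length := by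
  induction h with
  | one A => simp
  | cut A l₁ l₂ w c hw h₁ h₂ ih₁ ih₂ => rw [List.length_append]; omega

theorem Part.meas {A : Set E} {l : List (Set E)} (h : Part A l) (μ : Measure E) (q : ℝ≥0∞)
    (hq : ∀ P ∈ l, μ P = q) : μ A = l.length * q := by
  induction h with
  | one A => simpa using hq A (by simp)
  | cut A l₁ l₂ w c hw h₁ h₂ ih₁ ih₂ =>
    have e1 := ih₁ fun P hP => hq P (List.mem_append_left _ hP)
    have e2 := ih₂ fun P hP => hq P (List.mem_append_right _ hP)
    have hms : MeasurableSet {x : E | inner ℝ w x ≤ c} :=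
      (isClosed_le (by fun_prop) continuous_const).measurableSet
    have e3 := measure_inter_add_sdiff (μ := μ) A hms
    have e4 : A \ {x : E | inner ℝ w x ≤ c} = A ∩ {x : E | c < inner ℝ w x} := by
      ext x
      constructor
      · rintro ⟨h1, h2⟩
        have h3 : ¬ (inner ℝ w x ≤ c) := h2
        have h4 : c < inner ℝ w x := not_le.mp h3
        exact ⟨h1, h4⟩
      · rintro ⟨h1, h2⟩
        have h3 : c < inner ℝ w x := h2
        have h4 : ¬ (inner ℝ w x ≤ c) := not_le.mpr h3
        exact ⟨h1, h4⟩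
    rw [← e3, e4, e1, e2, List.length_append]
    push_cast
    ring

theorem Part.cases {A : Set E} {l : List (Set E)} (h : Part A l) (hl : 2 ≤ l.length) :
    ∃ (l₁ l₂ : List (Set E)) (w : E) (c : ℝ), w ≠ 0 ∧ l = l₁ ++ l₂ ∧
      Part (A ∩ {x | inner ℝ w x ≤ c}) l₁ ∧ Part (A ∩ {x | c < inner ℝ w x}) l₂ := by
  cases h with
  | one A => simp at hl
  | cut A l₁ l₂ w c hw h₁ h₂ => exact ⟨l₁, l₂, w, c, hw, rfl, h₁, h₂⟩

/-- the lower side of a cut is a half plane with the opposite normal -/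
theorem HP_le (w : E) (c : ℝ) : HP (-w) (-c) {x : E | inner ℝ w x ≤ c} := by
  constructor
  · intro x hx
    rw [inner_neg_left] at hx
    exact (neg_lt_neg_iff.mp hx).le
  · intro x hx
    rw [inner_neg_left]
    exact neg_le_neg hx

theorem HP_lt (w : E) (c : ℝ) : HP w c {x : E | c < inner ℝ w x} :=
  ⟨fun _ hx => hx, fun _ hx => le_of_lt hx⟩

theorem level1 {u : E} (hu : u ≠ 0) {t : ℝ} {P : Set E} (hP : HP u t P)
    (h1 : mass wr P = 11 * v) (h2 : mass wb P = 11 * v) : False := by
  obtain ⟨k, hk, hc⟩ := cover u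
  exact nocut (cert1 k hk) hu hc hP (by push_cast; exact h1) (by push_cast; exact h2)

theorem level2 {u : E} (hu : u ≠ 0) {t : ℝ} {P : Set E} (hP : HP u t P)
    (h1 : mass wr P = 22 * v) (h2 : mass wb P = 22 * v) : False := by
  obtain ⟨k, hk, hc⟩ := cover u
  exact nocut (cert2 k hk) hu hc hP (by push_cast; exact h2) (by push_cast; exact h1)

theorem level4 {u : E} (hu : u ≠ 0) {t : ℝ} {P : Set E} (hP : HP u t P)
    (h1 : mass wru P = 11 * v) (h2 : mass wbu P = 11 * v) : False := by
  obtain ⟨k, hk, hc⟩ := cover u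
  exact nocut (cert4 k hk) hu hc hP (by push_cast; exact h1) (by push_cast; exact h2)

theorem level3 {u : E} (hu : u ≠ 0) (hu1 : 0 ≤ u 1) {t : ℝ} {P : Set E} (hP : HP u t P)
    (h1 : mass wr P = 33 * v) (h2 : mass wb P = 33 * v) :
    ∀ i, (up i = true → B i ⊆ P) ∧ (up i = false → m i P = 0) := by
  obtain ⟨k, hk, hc⟩ := cover_half u hu1
  have h3 := cert3 k hk
  simp only [Bool.or_eq_true] at h3
  rcases h3 with ((h3 | h3) | h3) | h3
  · exact (nocut h3 hu hc hP (by push_cast; exact h1) (by push_cast; exact h2)).elim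
  · exact (nocut h3 hu hc hP (by push_cast; exact h2) (by push_cast; exact h1)).elim
  · exact ucut h3 (by decide) (by decide) (by decide) hu hc hP h1 h2
  · exact ucut h3 (by decide) (by decide) (by decide) hu hc hP h2 h1

/-- masses inside the upper side -/
theorem mass_inter {P : Set E} (h : ∀ i, (up i = true → B i ⊆ P) ∧ (up i = false → m i P = 0))
    (f : Fin 16 → ℕ) (Q : Set E) :
    mass f (P ∩ Q) = mass (fun i => if up i then f i else 0) Q := by
  unfold mass
  refine Finset.sum_congr rfl fun i _ => ?_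
  by_cases hi : up i = true
  · have : m i (P ∩ Q) = m i Q := by
      unfold m
      congr 2
      ext x
      constructor
      · rintro ⟨⟨_, h2⟩, h3⟩
        exact ⟨h2, h3⟩
      · rintro ⟨h2, h3⟩
        exact ⟨⟨(h i).1 hi h3, h2⟩, h3⟩
    simp [hi, this]
  · have hi' : up i = false := by simpa using hi
    have e1 : m i (P ∩ Q) = 0 :=
      le_antisymm ((m_mono i Set.inter_subset_left).trans ((h i).2 hi').le) (m_nonneg _ _)
    simp [hi', e1]

theorem no3 {u : E} (hu : u ≠ 0) (hu1 : 0 ≤ u 1) {t : ℝ} {P : Set E} (hP : HP u t P)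
    {l : List (Set E)} (hl : Part P l) (hlen : l.length = 3) {qr qb : ℝ≥0∞}
    (hr : ∀ Q ∈ l, mu wr Q = qr) (hb : ∀ Q ∈ l, mu wb Q = qb)
    (hqr : qr.toReal = 11 * v) (hqb : qb.toReal = 11 * v) : False := by
  have cnt : ∀ (f : Fin 16 → ℕ) (q : ℝ≥0∞) (A : Set E) (l' : List (Set E)), Part A l' →
      (∀ Q ∈ l', mu f Q = q) → q.toReal = 11 * v → mass f A = l'.length * (11 * v) := by
    intro f q A l' h1 h2 h3
    rw [← mu_toReal, h1.meas _ q h2, ENNReal.toReal_mul, h3, ENNReal.toReal_natCast]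
  have h1 := cnt wr qr P l hl hr hqr
  have h2 := cnt wb qb P l hl hb hqb
  rw [hlen] at h1 h2
  have hup := level3 hu hu1 hP (by rw [h1]; push_cast; ring) (by rw [h2]; push_cast; ring)
  obtain ⟨l₁, l₂, w, c, hw, rfl, p1, p2⟩ := hl.cases (by omega)
  have a1 := p1.length_pos
  have a2 := p2.length_pos
  rw [List.length_append] at hlen
  have hw' : -w ≠ 0 := neg_ne_zero.mpr hw
  have hor : l₁.length = 1 ∨ l₂.length = 1 := by omega
  rcases hor with h | h
  · have b1 := cnt wr qr _ l₁ p1 (fun Q hQ => hr Q (List.mem_append_left _ hQ)) hqr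
    have b2 := cnt wb qb _ l₁ p1 (fun Q hQ => hb Q (List.mem_append_left _ hQ)) hqb
    rw [h, mass_inter hup] at b1 b2
    exact level4 hw' (HP_le w c) (by rw [← one_mul (11 * v)]; exact_mod_cast b1)
      (by rw [← one_mul (11 * v)]; exact_mod_cast b2)
  · have b1 := cnt wr qr _ l₂ p2 (fun Q hQ => hr Q (List.mem_append_right _ hQ)) hqr
    have b2 := cnt wb qb _ l₂ p2 (fun Q hQ => hb Q (List.mem_append_right _ hQ)) hqb
    rw [h, mass_inter hup] at b1 b2
    exact level4 hw (HP_lt w c) (by rw [← one_mul (11 * v)]; exact_mod_cast b1)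
      (by rw [← one_mul (11 * v)]; exact_mod_cast b2)

/-- There is no fair iterated partition of the plane into six parts for the two measures. -/
theorem no_part {L : List (Set E)} (hL : Part Set.univ L) (h6 : L.length = 6)
    (hr : ∀ P ∈ L, ∀ Q ∈ L, mu wr P = mu wr Q) (hb : ∀ P ∈ L, ∀ Q ∈ L, mu wb P = mu wb Q) :
    False := by
  have hne : ∃ P0, P0 ∈ L := List.exists_mem_of_length_pos (by omega)
  obtain ⟨P0, hP0⟩ := hne
  have hv := v_pos
  have htot : ∀ f : Fin 16 → ℕ, (∑ i, f i) = 66 → mass f Set.univ = 66 * v := by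
    intro f hf
    unfold mass
    have : ∀ i, m i (Set.univ : Set E) = v := fun i => m_full (Set.subset_univ _)
    simp only [this]
    rw [← Finset.sum_mul]
    have e : ((∑ i, f i : ℕ) : ℝ) = 66 := by rw [hf]; norm_num
    push_cast at e
    rw [e]
  have hq : ∀ f : Fin 16 → ℕ, (∑ i, f i) = 66 → (∀ P ∈ L, mu f P = mu f P0) →
      (mu f P0).toReal = 11 * v := by
    intro f hf h
    have e1 := hL.meas (mu f) (mu f P0) h
    have e2 := htot f hf
    rw [← mu_toReal, e1, ENNReal.toReal_mul, h6, ENNReal.toReal_natCast] at e2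
    push_cast at e2
    linarith
  have hr' : ∀ P ∈ L, mu wr P = mu wr P0 := fun P hP => hr P hP P0 hP0
  have hb' : ∀ P ∈ L, mu wb P = mu wb P0 := fun P hP => hb P hP P0 hP0
  have hqr := hq wr (by decide) hr'
  have hqb := hq wb (by decide) hb'
  have cnt : ∀ (f : Fin 16 → ℕ) (q : ℝ≥0∞) (A : Set E) (l' : List (Set E)), Part A l' →
      (∀ Q ∈ l', mu f Q = q) → q.toReal = 11 * v → mass f A = l'.length * (11 * v) := by
    intro f q A l' h1 h2 h3
    rw [← mu_toReal, h1.meas _ q h2, ENNReal.toReal_mul, h3, ENNReal.toReal_natCast]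
  obtain ⟨l₁, l₂, w, c, hw, rfl, p1, p2⟩ := hL.cases (by omega)
  rw [Set.univ_inter] at p1 p2
  have a1 := p1.length_pos
  have a2 := p2.length_pos
  rw [List.length_append] at h6
  have hw' : -w ≠ 0 := neg_ne_zero.mpr hw
  have r1 := cnt wr _ _ l₁ p1 (fun Q hQ => hr' Q (List.mem_append_left _ hQ)) hqr
  have r2 := cnt wb _ _ l₁ p1 (fun Q hQ => hb' Q (List.mem_append_left _ hQ)) hqb
  have s1 := cnt wr _ _ l₂ p2 (fun Q hQ => hr' Q (List.mem_append_right _ hQ)) hqr
  have s2 := cnt wb _ _ l₂ p2 (fun Q hQ => hb' Q (List.mem_append_right _ hQ)) hqb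
  have hcase : l₁.length = 1 ∨ l₁.length = 2 ∨ l₁.length = 3 ∨ l₂.length = 2 ∨ l₂.length = 1 := by
    omega
  rcases hcase with h | h | h | h | h
  · rw [h] at r1 r2
    exact level1 hw' (HP_le w c) (by rw [r1]; push_cast; ring) (by rw [r2]; push_cast; ring)
  · rw [h] at r1 r2
    exact level2 hw' (HP_le w c) (by rw [r1]; push_cast; ring) (by rw [r2]; push_cast; ring)
  · by_cases hs : 0 ≤ w 1
    · exact no3 hw hs (HP_lt w c) p2 (by omega)
        (fun Q hQ => hr' Q (List.mem_append_right _ hQ))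
        (fun Q hQ => hb' Q (List.mem_append_right _ hQ)) hqr hqb
    · push Not at hs
      have hs' : 0 ≤ (-w) 1 := by
        simp only [PiLp.neg_apply]
        linarith
      exact no3 hw' hs' (HP_le w c) p1 h
        (fun Q hQ => hr' Q (List.mem_append_left _ hQ))
        (fun Q hQ => hb' Q (List.mem_append_left _ hQ)) hqr hqb
  · rw [h] at s1 s2
    exact level2 hw (HP_lt w c) (by rw [s1]; push_cast; ring) (by rw [s2]; push_cast; ring)
  · rw [h] at s1 s2
    exact level1 hw (HP_lt w c) (by rw [s1]; push_cast; ring) (by rw [s2]; push_cast; ring)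

end Pool.Agent.Lib.MP_f0067e_co
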