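import Pool.Agent.Lib.MP_f0067e_co.Geom

set_option autoImplicit false

open MeasureTheory ENNReal

namespace Pool.Agent.Lib.MP_f0067e_co

/-- area of the unit disc -/
noncomputable def V : ℝ≥0∞ := volume (Metric.ball (0 : E) 1)

theorem vol_B (i : Fin 16) : volume (B i) = V :=
  Measure.addHaar_ball_center _ _ _

theorem measurableSet_B (i : Fin 16) : MeasurableSet (B i) := Metric.isOpen_ball.measurableSet

theorem V_ne_top : V ≠ ⊤ := measure_ball_lt_top.ne

theorem V_pos : 0 < V := Metric.measure_ball_pos _ _ one_pos

/-- area of the unit disc as a real -/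
noncomputable def v : ℝ := V.toReal

theorem v_pos : 0 < v := ENNReal.toReal_pos V_pos.ne' V_ne_top

/-- area of the part of `S` in the `i`-th disc -/
noncomputable def m (i : Fin 16) (S : Set E) : ℝ := (volume (S ∩ B i)).toReal

theorem fin_inter (i : Fin 16) (S : Set E) : volume (S ∩ B i) ≠ ⊤ :=
  ne_top_of_le_ne_top (by rw [vol_B]; exact V_ne_top) (measure_mono Set.inter_subset_right)

theorem m_nonneg (i : Fin 16) (S : Set E) : 0 ≤ m i S := ENNReal.toReal_nonneg

theorem m_mono (i : Fin 16) {S T : Set E} (h : S ⊆ T) : m i S ≤ m i T :=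
  ENNReal.toReal_mono (fin_inter i T) (measure_mono (Set.inter_subset_inter_left _ h))

theorem m_le (i : Fin 16) (S : Set E) : m i S ≤ v := by
  unfold m v
  rw [← vol_B i]
  exact ENNReal.toReal_mono (by rw [vol_B]; exact V_ne_top) (measure_mono Set.inter_subset_right)

theorem m_full {i : Fin 16} {S : Set E} (h : B i ⊆ S) : m i S = v := by
  unfold m v
  rw [Set.inter_eq_right.mpr h, vol_B]

theorem m_empty {i : Fin 16} {S : Set E} (h : ∀ y ∈ B i, y ∉ S) : m i S = 0 := by
  have : S ∩ B i = ∅ := by
    ext y; simp only [Set.mem_inter_iff, Set.mem_empty_iff_false, iff_false, not_and]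
    exact fun h1 h2 => h y h2 h1
  simp [m, this]

/-- total mass of the measure with weights `f` on `S`, as a real -/
noncomputable def mass (f : Fin 16 → ℕ) (S : Set E) : ℝ := ∑ i, (f i : ℝ) * m i S

/-- the measure with weights `f` -/
noncomputable def mu (f : Fin 16 → ℕ) : Measure E := ∑ i, (f i : ℝ≥0∞) • volume.restrict (B i)

theorem mu_apply (f : Fin 16 → ℕ) (S : Set E) :
    mu f S = ∑ i, (f i : ℝ≥0∞) * volume (S ∩ B i) := by
  simp only [mu, Measure.finsetSum_apply, Measure.smul_apply, smul_eq_mul]
  refine Finset.sum_congr rfl fun i _ => ?_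
  rw [Measure.restrict_apply' (measurableSet_B i)]

theorem mu_toReal (f : Fin 16 → ℕ) (S : Set E) : (mu f S).toReal = mass f S := by
  rw [mu_apply, ENNReal.toReal_sum]
  · simp [mass, m]
  · intro i _
    exact ENNReal.mul_ne_top (ENNReal.natCast_ne_top _) (fin_inter i S)

theorem mu_ne_top (f : Fin 16 → ℕ) (S : Set E) : mu f S ≠ ⊤ := by
  rw [mu_apply]
  refine ENNReal.sum_ne_top.mpr fun i _ => ENNReal.mul_ne_top (ENNReal.natCast_ne_top _) (fin_inter i S)

theorem mu_finite (f : Fin 16 → ℕ) : IsFiniteMeasure (mu f) :=
  ⟨lt_of_le_of_ne le_top (mu_ne_top f _)⟩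

theorem mu_ac (f : Fin 16 → ℕ) : mu f ≪ (volume : Measure E) := by
  intro S hS
  rw [mu_apply]
  refine Finset.sum_eq_zero fun i _ => ?_
  rw [measure_mono_null Set.inter_subset_left hS, mul_zero]

/-- `P` is a half plane (open, closed or in between) with inner normal `u` and threshold `t` -/
def HP (u : E) (t : ℝ) (P : Set E) : Prop :=
  (∀ x, t < inner ℝ u x → x ∈ P) ∧ (∀ x ∈ P, t ≤ inner ℝ u x)

theorem nocut {f g : Fin 16 → ℕ} {L : ℕ} {n1 n2 w : ℤ × ℤ} (hcert : cert f g L n1 n2 w = true)
    {u : E} (hu : u ≠ 0) (hc : InCone n1 n2 u) {t : ℝ} {P : Set E} (hP : HP u t P)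
    (h1 : mass f P = L * v) (h2 : mass g P = L * v) : False := by
  simp only [cert, Bool.and_eq_true] at hcert
  obtain ⟨ha, hb⟩ := hcert
  replace ha := of_decide_eq_true ha
  replace hb := of_decide_eq_true hb
  have hv := v_pos
  by_cases ht : lin u w < t
  · have key : mass f P ≤ (∑ i, if clear 1 (ctr i) w n1 n2 then 0 else f i : ℕ) * v := by
      unfold mass
      push_cast
      rw [Finset.sum_mul]
      refine Finset.sum_le_sum fun i _ => ?_
      by_cases hi : clear 1 (ctr i) w n1 n2 = true
      · have : m i P = 0 := m_empty fun y hy hyP => by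
          have e1 := outside hc hu hi hy
          have e2 := hP.2 y hyP
          linarith
        simp [this, hi]
      · simp only [hi, if_false, Bool.false_eq_true]
        exact mul_le_mul_of_nonneg_left (m_le i P) (Nat.cast_nonneg _)
    have : ((∑ i, if clear 1 (ctr i) w n1 n2 then 0 else f i : ℕ) : ℝ) < L := by exact_mod_cast ha
    nlinarith
  · push Not at ht
    have key : (∑ i, if clear 1 w (ctr i) n1 n2 then g i else 0 : ℕ) * v ≤ mass g P := by
      unfold mass
      push_cast
      rw [Finset.sum_mul]
      refine Finset.sum_le_sum fun i _ => ?_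
      by_cases hi : clear 1 w (ctr i) n1 n2 = true
      · have : m i P = v := m_full fun y hy => by
          have e1 := inside hc hu hi hy
          exact hP.1 y (by linarith)
        simp [this, hi]
      · simp only [hi, if_false, Bool.false_eq_true, zero_mul]
        exact mul_nonneg (Nat.cast_nonneg _) (m_nonneg i P)
    have : (L : ℝ) < (∑ i, if clear 1 w (ctr i) n1 n2 then g i else 0 : ℕ) := by exact_mod_cast hb
    nlinarith

/-- In a cone of the second kind, a halving half plane contains all upper discs and, up to null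
sets, none of the lower ones. -/
theorem ucut {f g : Fin 16 → ℕ} {n1 n2 : ℤ × ℤ} (hcert : ucert f g n1 n2 = true)
    (hf : (∑ i, if up i then f i else 0) = 33) (hg : (∑ i, if up i then g i else 0) = 33)
    (hfg : ∀ i, f i ≠ 0 ∨ g i ≠ 0)
    {u : E} (hu : u ≠ 0) (hc : InCone n1 n2 u) {t : ℝ} {P : Set E} (hP : HP u t P)
    (h1 : mass f P = 33 * v) (h2 : mass g P = 33 * v) :
    ∀ i, (up i = true → B i ⊆ P) ∧ (up i = false → m i P = 0) := by
  simp only [ucert, Bool.and_eq_true] at hcert
  obtain ⟨ha, hb⟩ := hcert
  replace ha := of_decide_eq_true ha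
  replace hb := of_decide_eq_true hb
  have hv := v_pos
  have hu0 : 0 < ‖u‖ := norm_pos_iff.mpr hu
  -- sums over the upper discs
  have sumf : (∑ i, if up i then (f i : ℝ) * v else 0) = 33 * v := by
    have : ((∑ i, if up i then f i else 0 : ℕ) : ℝ) * v = 33 * v := by rw [hf]; norm_num
    rw [← this]; push_cast; rw [Finset.sum_mul]
    refine Finset.sum_congr rfl fun i _ => ?_
    split_ifs <;> simp
  have sumg : (∑ i, if up i then (g i : ℝ) * v else 0) = 33 * v := by
    have : ((∑ i, if up i then g i else 0 : ℕ) : ℝ) * v = 33 * v := by rw [hg]; norm_num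
    rw [← this]; push_cast; rw [Finset.sum_mul]
    refine Finset.sum_congr rfl fun i _ => ?_
    split_ifs <;> simp
  -- step A
  have stepA : ∀ a, up a = false → f a ≠ 0 → m a P = 0 := by
    intro a hua hfa
    by_contra hne
    have hex : ∃ x, x ∈ P ∧ x ∈ B a := by
      by_contra hno
      push Not at hno
      exact hne (m_empty fun y hy hyP => hno y hyP hy)
    obtain ⟨x, hxP, hxB⟩ := hex
    have hfull : ∀ d, up d = true → m d P = v := fun d hd => m_full fun y hy => by
      have e0 := clear_lin (by norm_num) hc (ha d a hd hua hfa)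
      have e1 := abs_lt.mp (ball_lt hu hy)
      have e2 := abs_lt.mp (ball_lt hu hxB)
      have e3 := hP.2 x hxP
      push_cast at e0
      exact hP.1 y (by linarith [e1.1, e2.2])
    have hpos : 0 < m a P := lt_of_le_of_ne (m_nonneg a P) (Ne.symm hne)
    have hfa' : (0 : ℝ) < f a := by exact_mod_cast Nat.pos_of_ne_zero hfa
    have : (∑ i, if up i then (f i : ℝ) * v else 0) +
        (∑ i, if i = a then (f a : ℝ) * m a P else 0) ≤ mass f P := by
      rw [← Finset.sum_add_distrib]
      refine Finset.sum_le_sum fun i _ => ?_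
      by_cases hi : up i = true
      · have hia : i ≠ a := by rintro rfl; rw [hua] at hi; exact absurd hi (by simp)
        simp [hi, hia, hfull i hi]
      · by_cases hia : i = a
        · subst hia; simp [hi]
        · simp only [hi, if_false, hia, add_zero, Bool.false_eq_true]
          exact mul_nonneg (Nat.cast_nonneg _) (m_nonneg i P)
    rw [sumf, h1] at this
    simp at this
    have := mul_pos hfa' hpos
    linarith
  -- step B
  have stepB : ∀ e, up e = true → f e ≠ 0 → m e P = v := by
    have hz : ∑ i, (if up i then (f i : ℝ) * (v - m i P) else 0) = 0 := by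
      have e1 : mass f P = ∑ i, (if up i then (f i : ℝ) * m i P else 0) := by
        unfold mass
        refine Finset.sum_congr rfl fun i _ => ?_
        by_cases hi : up i = true
        · simp [hi]
        · have hi' : up i = false := by simpa using hi
          by_cases hfi : f i = 0
          · simp [hi', hfi]
          · simp [hi', stepA i hi' hfi]
      have e2 : ∑ i, (if up i then (f i : ℝ) * (v - m i P) else 0) =
          (∑ i, if up i then (f i : ℝ) * v else 0) -
          ∑ i, (if up i then (f i : ℝ) * m i P else 0) := by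
        rw [← Finset.sum_sub_distrib]
        refine Finset.sum_congr rfl fun i _ => ?_
        split_ifs <;> ring
      rw [e2, sumf, ← e1, h1]; ring
    have hnn : ∀ i ∈ (Finset.univ : Finset (Fin 16)),
        0 ≤ (if up i then (f i : ℝ) * (v - m i P) else 0) := by
      intro i _
      split_ifs
      · exact mul_nonneg (Nat.cast_nonneg _) (by linarith [m_le i P])
      · exact le_refl _
    intro e he hfe
    have := (Finset.sum_eq_zero_iff_of_nonneg hnn).mp hz e (Finset.mem_univ _)
    rw [if_pos he] at this
    have hfe' : (f e : ℝ) ≠ 0 := by exact_mod_cast hfe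
    have := (mul_eq_zero.mp this).resolve_left hfe'
    linarith
  -- step C
  have stepC0 : ∀ e, up e = true → f e ≠ 0 → ∀ y ∈ B e, t ≤ inner ℝ u y := by
    intro e he hfe y hy
    by_contra hlt
    push Not at hlt
    have hO : IsOpen (B e ∩ {z : E | inner ℝ u z < t}) :=
      Metric.isOpen_ball.inter (isOpen_lt (by fun_prop) continuous_const)
    have hOpos : 0 < volume (B e ∩ {z : E | inner ℝ u z < t}) := hO.measure_pos _ ⟨y, hy, hlt⟩
    have hdisj : Disjoint (P ∩ B e) (B e ∩ {z : E | inner ℝ u z < t}) := by
      rw [Set.disjoint_left]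
      rintro z ⟨hzP, _⟩ ⟨_, hz⟩
      have := hP.2 z hzP
      exact absurd (lt_of_le_of_lt this hz) (lt_irrefl _)
    have hle : volume (P ∩ B e) + volume (B e ∩ {z : E | inner ℝ u z < t}) ≤ volume (B e) := by
      rw [← measure_union hdisj hO.measurableSet]
      exact measure_mono (Set.union_subset Set.inter_subset_right Set.inter_subset_left)
    have hme := stepB e he hfe
    have hfin : volume (B e ∩ {z : E | inner ℝ u z < t}) ≠ ⊤ :=
      ne_top_of_le_ne_top (by rw [vol_B]; exact V_ne_top) (measure_mono Set.inter_subset_left)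
    have h3 := ENNReal.toReal_mono (by rw [vol_B]; exact V_ne_top) hle
    rw [ENNReal.toReal_add (fin_inter e P) hfin, vol_B] at h3
    have h4 : 0 < (volume (B e ∩ {z : E | inner ℝ u z < t})).toReal :=
      ENNReal.toReal_pos hOpos.ne' hfin
    unfold m v at hme
    linarith
  have stepC1 : ∀ d, up d = true → ∀ y ∈ B d, t ≤ inner ℝ u y := by
    intro d hd y hy
    by_cases hfd : f d ≠ 0
    · exact stepC0 d hd hfd y hy
    · have hgd : g d ≠ 0 := (hfg d).resolve_left hfd
      obtain ⟨e, he, hfe, hcl⟩ := hb d hd hgd
      have e0 := clear_lin (by norm_num) hc hcl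
      have hy' : y - pt (ctr d) + pt (ctr e) ∈ B e := by
        simp only [B, Metric.mem_ball, dist_eq_norm] at hy ⊢
        rwa [add_sub_cancel_right]
      have e1 := stepC0 e he hfe _ hy'
      rw [inner_add_right, inner_sub_right, inner_pt, inner_pt] at e1
      push_cast at e0
      linarith
  have stepC2 : ∀ d, up d = true → B d ⊆ P := by
    intro d hd y hy
    have hopen : IsOpen (B d) := Metric.isOpen_ball
    have hcont : Continuous (fun s : ℝ => y - s • u) := by fun_prop
    have hpre : IsOpen ((fun s : ℝ => y - s • u) ⁻¹' B d) := hopen.preimage hcont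
    have h0 : (0 : ℝ) ∈ (fun s : ℝ => y - s • u) ⁻¹' B d := by simpa using hy
    obtain ⟨ε, hε, hball⟩ := Metric.isOpen_iff.mp hpre 0 h0
    have hmem : (ε / 2) ∈ Metric.ball (0 : ℝ) ε := by
      rw [Metric.mem_ball, Real.dist_eq, sub_zero, abs_of_pos (by linarith)]; linarith
    have h5 := stepC1 d hd _ (hball hmem)
    rw [inner_sub_right, inner_smul_right, real_inner_self_eq_norm_sq] at h5
    have h6 : 0 < ε / 2 * ‖u‖ ^ 2 := by positivity
    exact hP.1 y (by linarith)
  -- step D
  have stepD : ∀ a, up a = false → g a ≠ 0 → m a P = 0 := by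
    have hz : ∑ i, (if up i then 0 else (g i : ℝ) * m i P) = 0 := by
      have e1 : mass g P = (∑ i, if up i then (g i : ℝ) * v else 0) +
          ∑ i, (if up i then 0 else (g i : ℝ) * m i P) := by
        unfold mass
        rw [← Finset.sum_add_distrib]
        refine Finset.sum_congr rfl fun i _ => ?_
        by_cases hi : up i = true
        · simp [hi, m_full (stepC2 i hi)]
        · simp [hi]
      rw [sumg, h2] at e1
      linarith
    have hnn : ∀ i ∈ (Finset.univ : Finset (Fin 16)),
        0 ≤ (if up i then 0 else (g i : ℝ) * m i P) := by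
      intro i _
      split_ifs
      · exact le_refl _
      · exact mul_nonneg (Nat.cast_nonneg _) (m_nonneg i P)
    intro a hua hga
    have := (Finset.sum_eq_zero_iff_of_nonneg hnn).mp hz a (Finset.mem_univ _)
    rw [if_neg (by rw [hua]; simp)] at this
    have hga' : (g a : ℝ) ≠ 0 := by exact_mod_cast hga
    exact (mul_eq_zero.mp this).resolve_left hga'
  intro i
  refine ⟨stepC2 i, fun hi => ?_⟩
  rcases hfg i with h | h
  · exact stepA i hi h
  · exact stepD i hi h

end Pool.Agent.Lib.MP_f0067e_co
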